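import Pool.Agent.helper37.MX.Parts
import Pool.Agent.helper55.NM.Fin
import Pool.Agent.helper82.UP.UPC
import Pool.Agent.helper53.MW.GWS
import Pool.Agent.helper27.MW.MPB2
import Pool.Agent.helper78.MW.MPS
import Pool.Agent.helper95.MW.CHW3
import Pool.Agent.helper14.MW.SGL
import Pool.Agent.helper99.MW.CST
import Pool.Agent.helper67.MW.WIN

set_option autoImplicit false

namespace Pool.Agent.helper37.MX

open Pool.Agent.NK

open Pool.Agent.helper37.MW in
theorem window : WIN_stmt :=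
  WIN (CHW (GWS MPB MPS) Pool.Agent.helper95.NM.BIN) SGL CST Pool.Agent.helper37.MA.PEP

/-- `N(n,k) = M(n,k)` for all `2 ≤ k ≤ (1/2 - ε) n`, `n ≥ n0(ε)`. -/
theorem ALL (ε : ℝ) (hε : 0 < ε) : ∃ n0 : ℕ, ∀ n k : ℕ, n0 ≤ n → 2 ≤ k → (k : ℝ) ≤ (1 / 2 - ε) * n →
    IsGreatest (Pool.Agent.helper37.NK.sizes n k) (MV n k) :=
  STRONG partA Pool.Agent.helper55.NM.BZf partC window Pool.Agent.helper55.NM.SYMf Pool.Agent.helper72.UP.UPC
    Pool.Agent.helper37.NG.ALL ε hε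

end Pool.Agent.helper37.MX
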