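import Pool.Agent.helper37.MW.Spec
import Pool.Agent.helper55.NM.Spec2
import Pool.Agent.helper77.MC.Spec
import Pool.Agent.helper37.NK.K4

set_option autoImplicit false

namespace Pool.Agent.helper37.MX

open Finset Pool.Agent.NK Pool.Agent.helper72.UP

/-- The value for `2k ≤ n < 3k`. -/
theorem val2 (n k : ℕ) (hk : 2 ≤ k) (h2 : 2 * k ≤ n) (h3 : n < 3 * k) : MV n k = 2 * (n - 2).choose (k - 1) := by
  unfold MV
  rcases Nat.lt_or_ge (n + 1) (3 * k) with h | h
  · have e : (n + 1) / k = 2 := by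
      rw [Nat.div_eq_iff (by omega)]
      omega
    rw [e]
  · have e : n + 1 = 3 * k := by omega
    have e2 : (n + 1) / k = 3 := by
      rw [e]
      exact Nat.mul_div_cancel _ (by omega)
    rw [e2]
    obtain ⟨m, rfl⟩ : ∃ m, k = m + 2 := ⟨k - 2, by omega⟩
    obtain rfl : n = 3 * m + 5 := by omega
    rw [show 3 * m + 5 - 3 = 3 * m + 2 by omega, show 3 * m + 5 - 2 = 3 * m + 2 + 1 by omega,
      show m + 2 - 1 = m + 1 by omega]
    have h := Nat.choose_mul_succ_eq (3 * m + 2) (m + 1)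
    rw [show 3 * m + 2 + 1 - (m + 1) = 2 * (m + 1) by omega, show 3 * m + 2 + 1 = 3 * (m + 1) by omega] at h
    have h' : (m + 1) * (3 * (3 * m + 2).choose (m + 1)) = (m + 1) * (2 * (3 * (m + 1)).choose (m + 1)) := by
      linarith
    have h'' := Nat.eq_of_mul_eq_mul_left (by omega) h'
    rw [show 3 * m + 2 + 1 = 3 * (m + 1) by omega]
    exact h''

/-- The upper bound for `n < 3k`. -/
theorem ASM (hA : Pool.Agent.helper37.MA.AAA_stmt) (hB : Pool.Agent.NM.BZ_stmt) (hC : Pool.Agent.helper77.MC.CC_stmt)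
    (hW : Pool.Agent.helper37.MW.WIN_stmt) (hS : Pool.Agent.NM.SYM_stmt) (ε : ℝ) (hε : 0 < ε) :
    ∃ n0 : ℕ, ∀ (n k : ℕ) (x : Fin n → ℝ), n0 ≤ n → n < 3 * k → (k : ℝ) ≤ (1 / 2 - ε) * n → (∀ i, x i ≠ 0) →
      zer x k ≤ 2 * (n - 2).choose (k - 1) := by
  classical
  obtain ⟨p0, nA, hA⟩ := hA ε hε
  obtain ⟨nC, hC⟩ := hC ε hε
  have hB' : ∀ p : ℕ, ∃ n0 : ℕ, 3 ≤ p → ∀ (n k : ℕ) (x : Fin n → ℝ), n0 ≤ n →
      (1 / 3 + min ε (1 / 150)) * n ≤ k → (k : ℝ) ≤ (1 / 2 - min ε (1 / 150)) * n → (∀ i, x i ≠ 0) →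
      Fintype.card {i // 0 < x i} = p → zer x k ≤ 2 * (n - 2).choose (k - 1) := by
    intro p
    by_cases hp : 3 ≤ p
    · obtain ⟨n0, h0⟩ := hB (min ε (1 / 150)) p (lt_min hε (by norm_num)) hp
      refine ⟨n0, fun _ n k x h1 h2 h3 h4 h5 => h0 n k x h1 h2 h3 h4 ?_⟩
      rw [← h5, Fintype.card_subtype]
    · exact ⟨0, fun h => absurd h hp⟩
  choose N hN using hB'
  let n0 := max nA (max nC (max (100 * p0 ^ 2 + 100) ((range p0).sup N)))
  -- one side
  have key : ∀ (n k : ℕ) (x : Fin n → ℝ), n0 ≤ n → n < 3 * k → (k : ℝ) ≤ (1 / 2 - ε) * n → (∀ i, x i ≠ 0) →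
      Fintype.card {i // 0 < x i} < p0 → zer x k ≤ 2 * (n - 2).choose (k - 1) := by
    intro n k x hn h3 hk hx hp
    have hn1 : nC ≤ n := le_trans (le_trans (le_max_left _ _) (le_max_right _ _)) hn
    have hn2 : 100 * p0 ^ 2 + 100 ≤ n :=
      le_trans (le_trans (le_max_left _ _) (le_trans (le_max_right _ _) (le_max_right _ _))) hn
    have hn3 : (range p0).sup N ≤ n :=
      le_trans (le_trans (le_max_right _ _) (le_trans (le_max_right _ _) (le_max_right _ _))) hn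
    have h3' : (n : ℝ) < 3 * k := by exact_mod_cast h3
    rcases Nat.lt_or_ge (Fintype.card {i // 0 < x i}) 3 with h | h
    · apply hC n k x hn1 (by linarith) hk hx
      rw [← Fintype.card_subtype]
      omega
    · rcases Nat.lt_or_ge (17 * n) (50 * k) with h4 | h4
      · have h4' : 17 * (n : ℝ) < 50 * k := by exact_mod_cast h4
        have hn0 : (0 : ℝ) ≤ n := Nat.cast_nonneg n
        have m1 := min_le_left ε (1 / 150 : ℝ)
        have m2 := min_le_right ε (1 / 150 : ℝ)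
        have m3 := mul_le_mul_of_nonneg_right m1 hn0
        have m4 := mul_le_mul_of_nonneg_right m2 hn0
        exact hN _ h n k x (le_trans (Finset.le_sup (mem_range.2 hp)) hn3) (by nlinarith) (by nlinarith) hx rfl
      · refine hW _ n k h ?_ h3 h4 x hx rfl
        have : Fintype.card {i // 0 < x i} ^ 2 ≤ p0 ^ 2 := Nat.pow_le_pow_left hp.le 2
        omega
  refine ⟨n0, fun n k x hn h3 hk hx => ?_⟩
  rcases Nat.lt_or_ge (Fintype.card {i // 0 < x i}) p0 with h | h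
  · exact key n k x hn h3 hk hx h
  rcases Nat.lt_or_ge (Fintype.card {i // x i < 0}) p0 with h' | h'
  · rw [← hS n k x]
    apply key n k (fun i => - x i) hn h3 hk (fun i => neg_ne_zero.2 (hx i))
    have e : Fintype.card {i // 0 < - x i} = Fintype.card {i // x i < 0} := by
      apply Fintype.card_congr
      exact Equiv.subtypeEquivRight (fun i => neg_pos)
    rw [e]
    exact h'
  · exact hA n k x (le_trans (le_max_left _ _) hn) h3.le hk hx h h'

/-- **The strong form.** -/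
theorem STRONG (hA : Pool.Agent.helper37.MA.AAA_stmt) (hB : Pool.Agent.NM.BZ_stmt) (hC : Pool.Agent.helper77.MC.CC_stmt)
    (hW : Pool.Agent.helper37.MW.WIN_stmt) (hS : Pool.Agent.NM.SYM_stmt) (hU : UPC_stmt)
    (hN : ∀ n k : ℕ, 2 ≤ k → 3 * k ≤ n → ¬ (n = 12 ∧ k = 4) → IsGreatest (Pool.Agent.helper37.NK.sizes n k) (MV n k))
    (ε : ℝ) (hε : 0 < ε) :
    ∃ n0 : ℕ, ∀ n k : ℕ, n0 ≤ n → 2 ≤ k → (k : ℝ) ≤ (1 / 2 - ε) * n →
      IsGreatest (Pool.Agent.helper37.NK.sizes n k) (MV n k) := by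
  obtain ⟨n0, h0⟩ := ASM hA hB hC hW hS ε hε
  refine ⟨max n0 13, fun n k hn hk hkn => ?_⟩
  have hn13 : 13 ≤ n := le_trans (le_max_right _ _) hn
  rcases Nat.lt_or_ge n (3 * k) with h | h
  · have h2 : 2 * k ≤ n := by
      have : (0 : ℝ) ≤ ε * n := mul_nonneg hε.le (Nat.cast_nonneg n)
      have : (2 : ℝ) * k ≤ n := by nlinarith
      exact_mod_cast this
    constructor
    · exact Pool.Agent.helper37.NK.lowerM n k k hk le_rfl (by omega)
    · intro m hm
      obtain ⟨x, hx, hmx⟩ := hU n k m hm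
      rw [val2 n k hk h2 h]
      exact hmx.trans (h0 n k x (le_trans (le_max_left _ _) hn) h hkn hx)
  · exact hN n k hk h (by omega)

end Pool.Agent.helper37.MX
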