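import Pool.Agent.helper37.NG.All
import Pool.Agent.helper37.MX.Main
import Pool.Agent.helper67.MA.AAA2
import Pool.Agent.helper96.MA.PEP2
import Pool.Agent.helper63.MA.CHS
import Pool.Agent.helper24.MA.HYP
import Pool.Agent.helper30.MA.UPI
import Pool.Agent.helper39.MA.CB1
import Pool.Agent.helper22.MA.SYM
import Pool.Agent.helper73.MA.CB2
import Pool.Agent.helper69.MA.GEO
import Pool.Agent.helper27.MA.TAI
import Pool.Agent.helper21.MA.RAT
import Pool.Agent.helper31.MC.JC
import Pool.Agent.helper72.MC.SG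
import Pool.Agent.helper41.MC.ST
import Pool.Agent.helper32.MC.FA
import Pool.Agent.helper79.MC.GD
import Pool.Agent.helper5.MC.BA
import Pool.Agent.helper36.MC.P2
import Pool.Agent.helper59.MC.P1
import Pool.Agent.helper99.MC.S1
import Pool.Agent.helper89.MC.S2
import Pool.Agent.helper47.MC.CR
import Pool.Agent.helper71.MC.AN
import Pool.Agent.helper27.MC.CC

set_option autoImplicit false

namespace Pool.Agent.helper37.MX

theorem partA : Pool.Agent.helper37.MA.AAA_stmt :=
  Pool.Agent.helper37.MA.AAA Pool.Agent.helper37.MA.PEP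
    (Pool.Agent.helper37.MA.CHS (Pool.Agent.helper37.MA.HYP Pool.Agent.helper37.MA.UPI
      (Pool.Agent.helper37.MA.CB1 Pool.Agent.helper37.NF.AVG Pool.Agent.helper64.NK.UNI Pool.Agent.helper37.MA.SYM)
      Pool.Agent.helper37.MA.CB2))
    Pool.Agent.helper37.MA.GEO Pool.Agent.helper37.MA.TAI Pool.Agent.helper37.MA.RAT

open Pool.Agent.helper77.MC in
theorem partC : Pool.Agent.helper77.MC.CC_stmt :=
  CC (P1 FA) (P2 FA (GD FA) (BA (SG JC) (ST JC) FA)) S1 S2 (AN CR)

end Pool.Agent.helper37.MX
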